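import Pool.Agent.S7.Defs

/-!
# S7, blocks P, V, T: the interface (helper36)

`Φ t` is the kernel of the interval `(α + t, β + t]`, `t : ℝ`; `G` is the finite group of P1.
The blocks V and T use only `Fam` and `Sup` (and block K).
-/

set_option autoImplicit false

namespace Pool.Agent.S7

open MeasureTheory Filter Topology
open scoped ENNReal

variable {K : Type*} [CommGroup K] [MeasurableSpace K]

/-- one parameter family of kernels -/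
structure Fam {V : Type*} [NormedAddCommGroup V] (m : Measure K) (C : ℝ) (Φ : ℝ → K → V) :
    Prop where
  sm : ∀ t, StronglyMeasurable (Φ t)
  bdd : ∀ t y, ‖Φ t y‖ ≤ C
  cont : ∀ t t', ∀ᵐ y ∂m, ‖Φ t y - Φ t' y‖ ≤ Real.sqrt (2 * |t - t'|)

variable {E : Type*} [NormedAddCommGroup E] [InnerProductSpace ℂ E]
  {H : Type*} [NormedAddCommGroup H] [InnerProductSpace ℂ H]

/-- a unitary operator as an operator -/
noncomputable abbrev opU (h : E ≃ₗᵢ[ℂ] E) : E →L[ℂ] E := ((h : E ≃L[ℂ] E) : E →L[ℂ] E)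

/-- the relation (P3), pointwise, for all shifts with the same `τ` -/
def Rel (m : Measure K) (Φ : ℝ → K → (E →L[ℂ] H)) (q q' : ℕ) (τ : K → (E ≃ₗᵢ[ℂ] E)) : Prop :=
  ∀ t : ℝ, ∃ N : Set K, m N = 0 ∧ ∀ x ∉ N, ∀ x' ∉ N, ∀ e e' : E,
    inner ℂ (Φ t (x ^ q) e) (Φ t (x' ^ q) e') =
      inner ℂ (Φ (t + (Real.log q' - Real.log q)) (x ^ q') (τ x e))
        (Φ (t + (Real.log q' - Real.log q)) (x' ^ q') (τ x' e'))

/-- the supply of pairs of primes (P4), at all scales `ρ₀` -/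
def Sup (m : Measure K) (G : Subgroup (E ≃ₗᵢ[ℂ] E)) (Φ : ℝ → K → (E →L[ℂ] H)) : Prop :=
  ∀ ρ₀ : ℝ, 0 < ρ₀ → ∃ ρ₁ : ℝ, 0 < ρ₁ ∧ ∀ B : Set ℕ, Thin B → ∀ Q : ℕ, 1 ≤ Q → ∀ P₀ : ℕ,
    ∃ (q q' : ℕ) (τ : K → (E ≃ₗᵢ[ℂ] E)), q.Prime ∧ q'.Prime ∧ q ∉ B ∧ q' ∉ B ∧
      q % Q = 1 % Q ∧ q' % Q = 1 % Q ∧ P₀ ≤ q ∧ ρ₁ ≤ Real.log q' - Real.log q ∧
      Real.log q' - Real.log q ≤ ρ₀ ∧ FM τ ∧ (∀ y, τ y ∈ G) ∧ Rel m Φ q q' τ

/-- `Ψ` is an `L¹` limit of trigonometric polynomials in torsion characters -/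
def Tor1 {V : Type*} [TopologicalSpace K] [NormedAddCommGroup V] [NormedSpace ℂ V]
    (m : Measure K) (Ψ : K → V) : Prop :=
  ∀ ε : ℝ, 0 < ε → ∃ (n : ℕ) (χ : Fin n → PontryaginDual K) (v : Fin n → V), (∀ i, Tor (χ i)) ∧
    ∫ y, ‖Ψ y - ∑ i, ((χ i y : Circle) : ℂ) • v i‖ ∂m ≤ ε

end Pool.Agent.S7
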